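import Mathlib
import Pool.Agent.H523R4.Union
import Pool.Agent.TH521.DigFinal

set_option autoImplicit false

/-!
Local form (one scale, uniform in the set) of the power lower bounds for sets closed under digitwise
operations, for affine images of such sets, and the covering law.
-/

namespace Pool.Agent.U198.BC

open Finset Filter Pool.Agent.H523R4.BC Pool.Agent.TH521.Dig

/-- at all large scales `M` every member of the class with at least `M ^ ε` elements below `M` has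
a number `x ≤ D M` with at least `M ^ c` representations -/
def Loc (K : Set ℕ → Prop) (ε : ℝ) (D : ℕ) : Prop :=
  ∃ c : ℝ, 0 < c ∧ ∀ᶠ M : ℕ in atTop, ∀ C : Set ℕ, K C →
    (M : ℝ) ^ ε ≤ ((C ∩ Set.Iio M).ncard : ℝ) →
    ∃ x ≤ D * M, (M : ℝ) ^ c ≤ (rep2 C x : ℝ)

theorem fin_inter (C : Set ℕ) (M : ℕ) : (C ∩ Set.Iio M).Finite :=
  (Set.finite_Iio M).subset Set.inter_subset_right

theorem loc_of_pow {g : ℕ} (hg : 2 ≤ g) {K : Set ℕ → Prop} {α ε c : ℝ} (hα : 0 ≤ α)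
    (hαε : α < ε) (hc : 0 < c)
    (H : ∀ᶠ n : ℕ in atTop, ∀ C : Set ℕ, K C →
      (g : ℝ) ^ (α * n) ≤ ((C ∩ Set.Iio (g ^ n)).ncard : ℝ) →
      ∃ x < 2 * g ^ n, (2 : ℝ) ^ (c * n) ≤ (rep2 C x : ℝ)) : Loc K ε (2 * g) := by
  have hgR : (2 : ℝ) ≤ g := by exact_mod_cast hg
  have hg0 : (0 : ℝ) < g := by linarith
  have hg1 : 1 < g := by omega
  have hl2 : 0 < Real.log 2 := Real.log_pos (by norm_num)
  have hlg : 0 < Real.log g := Real.log_pos (by linarith)
  refine ⟨c * Real.log 2 / Real.log g, by positivity, ?_⟩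
  -- the exponent of the power of `g` just above `M`
  have hcl : Tendsto (fun M : ℕ => Nat.clog g M) atTop atTop := by
    refine tendsto_atTop.2 fun b => ?_
    filter_upwards [eventually_ge_atTop (g ^ b)] with M hM
    have h1 := Nat.clog_mono_right g hM
    rwa [Nat.clog_pow g b hg1] at h1
  obtain ⟨n0, hn0⟩ := eventually_atTop.1 H
  obtain ⟨n1, hn1⟩ := exists_nat_ge (ε / (ε - α))
  have hev := (tendsto_atTop.1 hcl) (n0 + n1 + 1)
  filter_upwards [hev, eventually_ge_atTop 2] with M hM hM2 C hC hcard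
  set n := Nat.clog g M with hn
  have hMn : M ≤ g ^ n := Nat.le_pow_clog hg1 M
  have hMn' : g ^ (n - 1) < M := by
    have := Nat.pow_pred_clog_lt_self hg1 (x := M) (by omega)
    simpa using this
  have hn1' : 1 ≤ n := by omega
  have hM0 : (0 : ℝ) < M := by exact_mod_cast (by omega : 0 < M)
  have hεα : 0 < ε - α := by linarith
  have hcard2 : (g : ℝ) ^ (α * n) ≤ ((C ∩ Set.Iio (g ^ n)).ncard : ℝ) := by
    have h1 : ((C ∩ Set.Iio M).ncard : ℝ) ≤ ((C ∩ Set.Iio (g ^ n)).ncard : ℝ) := by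
      exact_mod_cast Set.ncard_le_ncard (Set.inter_subset_inter_right C
        (Set.Iio_subset_Iio hMn)) (fin_inter C _)
    refine le_trans ?_ (hcard.trans h1)
    have h2 : ((g ^ (n - 1) : ℕ) : ℝ) ≤ M := by exact_mod_cast hMn'.le
    have h3 : ((g : ℝ) ^ ((n : ℝ) - 1)) ≤ M := by
      have h4 : ((n : ℝ) - 1) = ((n - 1 : ℕ) : ℝ) := by
        rw [Nat.cast_sub hn1']; simp
      rw [h4, Real.rpow_natCast]
      push_cast at h2
      exact h2
    have h4 : ((g : ℝ) ^ ((n : ℝ) - 1)) ^ ε ≤ (M : ℝ) ^ ε :=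
      Real.rpow_le_rpow (by positivity) h3 (by linarith)
    refine le_trans ?_ h4
    rw [← Real.rpow_mul hg0.le]
    refine Real.rpow_le_rpow_of_exponent_le (by linarith) ?_
    have h5 : (n1 : ℝ) ≤ n := by exact_mod_cast (by omega : n1 ≤ n)
    have h6 : ε / (ε - α) ≤ n := hn1.trans h5
    rw [div_le_iff₀ hεα] at h6
    nlinarith
  obtain ⟨x, hx, hrep⟩ := hn0 n (by omega) C hC hcard2
  refine ⟨x, ?_, le_trans ?_ hrep⟩
  · have h1 : g ^ n = g ^ (n - 1) * g := by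
      rw [← pow_succ]
      congr 1
      omega
    have h2 : g ^ (n - 1) * g ≤ M * g := Nat.mul_le_mul_right _ hMn'.le
    calc x ≤ 2 * g ^ n := hx.le
      _ ≤ 2 * (M * g) := by rw [h1]; exact Nat.mul_le_mul_left _ h2
      _ = 2 * g * M := by ring
  · have h1 : (M : ℝ) ≤ (g : ℝ) ^ (n : ℝ) := by
      rw [Real.rpow_natCast]
      exact_mod_cast hMn
    have h2 : (M : ℝ) ^ (c * Real.log 2 / Real.log g) ≤
        ((g : ℝ) ^ (n : ℝ)) ^ (c * Real.log 2 / Real.log g) :=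
      Real.rpow_le_rpow hM0.le h1 (by positivity)
    refine h2.trans (le_of_eq ?_)
    rw [← Real.rpow_mul hg0.le, Real.rpow_def_of_pos hg0, Real.rpow_def_of_pos (by norm_num)]
    congr 1
    field_simp

theorem loc_mono {K K' : Set ℕ → Prop} {ε : ℝ} {D D' : ℕ} (h : Loc K ε D)
    (hK : ∀ C, K' C → K C) (hD : D ≤ D') : Loc K' ε D' := by
  obtain ⟨c, hc, h⟩ := h
  refine ⟨c, hc, h.mono fun M hM C hC hcard => ?_⟩
  obtain ⟨x, hx, hr⟩ := hM C (hK C hC) hcard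
  exact ⟨x, hx.trans (Nat.mul_le_mul_right _ hD), hr⟩

theorem loc_mono_exp {K : Set ℕ → Prop} {ε ε' : ℝ} {D : ℕ} (h : Loc K ε D)
    (hε : ε ≤ ε') : Loc K ε' D := by
  obtain ⟨c, hc, h⟩ := h
  refine ⟨c, hc, (h.and (eventually_ge_atTop 1)).mono fun M hM C hC hcard => ?_⟩
  refine hM.1 C hC (le_trans ?_ hcard)
  exact Real.rpow_le_rpow_of_exponent_le (by exact_mod_cast hM.2) hε

theorem loc_or {K K' : Set ℕ → Prop} {ε : ℝ} {D : ℕ} (h : Loc K ε D) (h' : Loc K' ε D) :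
    Loc (fun C => K C ∨ K' C) ε D := by
  obtain ⟨c, hc, h⟩ := h
  obtain ⟨c', hc', h'⟩ := h'
  refine ⟨min c c', lt_min hc hc', ?_⟩
  filter_upwards [h, h', eventually_ge_atTop 1] with M hM hM' hM1 C hC hcard
  have hM1' : (1 : ℝ) ≤ M := by exact_mod_cast hM1
  rcases hC with hC | hC
  · obtain ⟨x, hx, hr⟩ := hM C hC hcard
    exact ⟨x, hx, (Real.rpow_le_rpow_of_exponent_le hM1' (min_le_left _ _)).trans hr⟩
  · obtain ⟨x, hx, hr⟩ := hM' C hC hcard
    exact ⟨x, hx, (Real.rpow_le_rpow_of_exponent_le hM1' (min_le_right _ _)).trans hr⟩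

theorem loc_empty (ε : ℝ) (D : ℕ) : Loc (fun _ => False) ε D :=
  ⟨1, one_pos, Eventually.of_forall fun _ _ h => absurd h id⟩

/-- finitely many bases -/
theorem loc_bases {K : ℕ → Set ℕ → Prop} {ε : ℝ} {D : ℕ} (G : ℕ)
    (h : ∀ g, 2 ≤ g → g ≤ G → Loc (K g) ε D) :
    Loc (fun C => ∃ g, 2 ≤ g ∧ g ≤ G ∧ K g C) ε D := by
  induction G with
  | zero =>
    refine loc_mono (loc_empty ε D) ?_ le_rfl
    rintro C ⟨g, h1, h2, _⟩
    omega
  | succ G ih =>
    have h1 := ih fun g h1 h2 => h g h1 (by omega)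
    by_cases hG : 2 ≤ G + 1
    · refine loc_mono (loc_or h1 (h (G + 1) hG le_rfl)) ?_ le_rfl
      rintro C ⟨g, h2, h3, h4⟩
      rcases Nat.lt_or_ge g (G + 1) with h5 | h5
      · exact Or.inl ⟨g, h2, by omega, h4⟩
      · have h6 : g = G + 1 := by omega
        subst h6
        exact Or.inr h4
    · refine loc_mono h1 ?_ le_rfl
      rintro C ⟨g, h2, h3, h4⟩
      omega

/-- affine images -/
theorem rep_image {C : Set ℕ} {u v : ℕ} (hu : 1 ≤ u) (x : ℕ) :
    rep2 C x ≤ rep2 ((fun c => u * c + v) '' C) (u * x + 2 * v) := by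
  unfold rep2
  have hinj : Function.Injective (fun p : ℕ × ℕ => (u * p.1 + v, u * p.2 + v)) := by
    rintro ⟨a, b⟩ ⟨a', b'⟩ h
    simp only [Prod.mk.injEq] at h
    have h1 : u * a = u * a' := by omega
    have h2 : u * b = u * b' := by omega
    rw [Prod.mk.injEq]
    exact ⟨Nat.eq_of_mul_eq_mul_left (by omega) h1, Nat.eq_of_mul_eq_mul_left (by omega) h2⟩
  rw [← Set.ncard_image_of_injective _ hinj]
  refine Set.ncard_le_ncard ?_ (rep2_finite _ _)
  rintro _ ⟨⟨a, b⟩, ⟨ha, hb, hab⟩, rfl⟩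
  refine ⟨⟨a, ha, rfl⟩, ⟨b, hb, rfl⟩, ?_⟩
  simp only at hab ⊢
  rw [← hab]
  ring

theorem loc_image {K : Set ℕ → Prop} {ε : ℝ} {D : ℕ} (hε : 0 < ε) (hε1 : ε ≤ 1)
    (h : Loc K ε D) :
    Loc (fun P => ∃ (C : Set ℕ) (u v : ℕ), 1 ≤ u ∧ K C ∧ P = (fun c => u * c + v) '' C) ε
      (2 * D + 2) := by
  obtain ⟨c, hc, h⟩ := h
  refine ⟨c * ε, by positivity, ?_⟩
  obtain ⟨M0, hM0⟩ := eventually_atTop.1 h
  have hev : ∀ᶠ N : ℕ in atTop, ((M0 : ℝ) + 2) ≤ (N : ℝ) ^ ε :=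
    ((tendsto_rpow_atTop hε).comp tendsto_natCast_atTop_atTop).eventually_ge_atTop _
  filter_upwards [hev, eventually_ge_atTop 2] with N hN hN2 P hP hcard
  obtain ⟨C, u, v, hu, hC, rfl⟩ := hP
  have hN0 : (0 : ℝ) < N := by exact_mod_cast (by omega : 0 < N)
  set M := (N - 1) / u + 1 with hMdef
  have hinj : Function.Injective (fun c => u * c + v) := by
    intro a b hab
    simp only at hab
    exact Nat.eq_of_mul_eq_mul_left (by omega) (by omega : u * a = u * b)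
  -- the preimage lies below `M`
  have hsub : ((fun c => u * c + v) '' C) ∩ Set.Iio N ⊆
      (fun c => u * c + v) '' (C ∩ Set.Iio M) := by
    rintro _ ⟨⟨a, ha, rfl⟩, haN⟩
    refine ⟨a, ⟨ha, ?_⟩, rfl⟩
    simp only [Set.mem_Iio] at haN ⊢
    have h1 : a ≤ (N - 1) / u := by
      rw [Nat.le_div_iff_mul_le (by omega)]
      have : a * u = u * a := Nat.mul_comm _ _
      omega
    omega
  have hcardM : (((fun c => u * c + v) '' C) ∩ Set.Iio N).ncard ≤ (C ∩ Set.Iio M).ncard := by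
    refine (Set.ncard_le_ncard hsub ((fin_inter C M).image _)).trans ?_
    exact Set.ncard_image_le (fin_inter C M)
  have hMN : M ≤ N := by
    have : (N - 1) / u ≤ N - 1 := Nat.div_le_self _ _
    omega
  have hcard' : (N : ℝ) ^ ε ≤ ((C ∩ Set.Iio M).ncard : ℝ) :=
    hcard.trans (by exact_mod_cast hcardM)
  have hCM : (C ∩ Set.Iio M).ncard ≤ M := by
    have h1 := Set.ncard_le_ncard (Set.inter_subset_right (s := C) (t := Set.Iio M))
      (Set.finite_Iio M)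
    refine h1.trans (le_of_eq ?_)
    rw [show Set.Iio M = ((Finset.range M : Finset ℕ) : Set ℕ) by ext x; simp,
      Set.ncard_coe_finset, card_range]
  have hNM : (N : ℝ) ^ ε ≤ M := hcard'.trans (by exact_mod_cast hCM)
  have hM0' : M0 + 2 ≤ M := by
    have : (M0 : ℝ) + 2 ≤ M := hN.trans hNM
    exact_mod_cast this
  have hcard2 : (M : ℝ) ^ ε ≤ ((C ∩ Set.Iio M).ncard : ℝ) :=
    (Real.rpow_le_rpow (Nat.cast_nonneg _) (by exact_mod_cast hMN) hε.le).trans hcard'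
  obtain ⟨x, hx, hrep⟩ := hM0 M (by omega) C hC hcard2
  -- sizes of `u` and `v`
  have hone : 1 < (((fun c => u * c + v) '' C) ∩ Set.Iio N).ncard := by
    have h1 : (M0 : ℝ) + 2 ≤ ((((fun c => u * c + v) '' C) ∩ Set.Iio N).ncard : ℝ) :=
      hN.trans hcard
    have h2 : M0 + 2 ≤ (((fun c => u * c + v) '' C) ∩ Set.Iio N).ncard := by exact_mod_cast h1
    omega
  rw [Set.one_lt_ncard (fin_inter _ N)] at hone
  obtain ⟨p, hp, q, hq, hpq⟩ := hone
  obtain ⟨⟨a, ha, rfl⟩, haN⟩ := hp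
  obtain ⟨⟨b, hb, rfl⟩, hbN⟩ := hq
  simp only [Set.mem_Iio] at haN hbN
  have hv : v < N := by omega
  have huN : u ≤ N := by
    have hab : a ≠ b := fun h => hpq (by rw [h])
    rcases Nat.eq_zero_or_pos a with h0 | h0
    · have hb0 : 1 ≤ b := by omega
      have : u * 1 ≤ u * b := Nat.mul_le_mul_left _ hb0
      omega
    · have : u * 1 ≤ u * a := Nat.mul_le_mul_left _ h0
      omega
  refine ⟨u * x + 2 * v, ?_, ?_⟩
  · have h1 : u * M ≤ 2 * N := by
      have h2 : u * ((N - 1) / u) ≤ N - 1 := Nat.mul_div_le _ _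
      have h3 : u * M = u * ((N - 1) / u) + u := by rw [hMdef]; ring
      omega
    calc u * x + 2 * v ≤ u * (D * M) + 2 * N := by
          have := Nat.mul_le_mul_left u hx
          omega
      _ = D * (u * M) + 2 * N := by ring
      _ ≤ D * (2 * N) + 2 * N := by
          have := Nat.mul_le_mul_left D h1
          omega
      _ = (2 * D + 2) * N := by ring
  · calc (N : ℝ) ^ (c * ε) = ((N : ℝ) ^ ε) ^ c := by rw [← Real.rpow_mul hN0.le]; ring_nf
      _ ≤ (M : ℝ) ^ c := Real.rpow_le_rpow (by positivity) hNM hc.le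
      _ ≤ (rep2 C x : ℝ) := hrep
      _ ≤ _ := by exact_mod_cast rep_image hu x

/-- the covering law: at a large scale `N`, a set which contains at most `N ^ κ` members of the
class covering at least `δ √N` elements below `N` has a number with `N ^ c` representations -/
theorem cover {K : Set ℕ → Prop} {ε κ : ℝ} {D : ℕ} (hεκ : ε + κ < 1 / 2)
    (h : Loc K ε D) : ∃ c : ℝ, 0 < c ∧ ∀ δ : ℝ, 0 < δ → ∀ᶠ N : ℕ in atTop,
    ∀ (A : Set ℕ) (F : Set (Set ℕ)), F.Finite → (F.ncard : ℝ) ≤ (N : ℝ) ^ κ →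
      (∀ P ∈ F, P ⊆ A ∧ K P) → δ * Real.sqrt N ≤ ((⋃₀ F ∩ Set.Iio N).ncard : ℝ) →
      ∃ x ≤ D * N, (N : ℝ) ^ c ≤ (rep2 A x : ℝ) := by
  classical
  obtain ⟨c, hc, h⟩ := h
  refine ⟨c, hc, fun δ hδ => ?_⟩
  have hev : ∀ᶠ N : ℕ in atTop, δ⁻¹ + 1 ≤ (N : ℝ) ^ (1 / 2 - ε - κ) :=
    ((tendsto_rpow_atTop (by linarith : 0 < 1 / 2 - ε - κ)).comp
      tendsto_natCast_atTop_atTop).eventually_ge_atTop _
  filter_upwards [h, hev, eventually_ge_atTop 1] with N hN hN1 hN2 A F hF hFc hFA hcov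
  have hN0 : (0 : ℝ) < N := by exact_mod_cast hN2
  -- some member has many elements
  obtain ⟨P, hP, hPc⟩ : ∃ P ∈ F, (N : ℝ) ^ ε ≤ ((P ∩ Set.Iio N).ncard : ℝ) := by
    by_contra hcon
    push Not at hcon
    have h1 : ((⋃₀ F ∩ Set.Iio N).ncard : ℝ) ≤ ∑ P ∈ hF.toFinset, ((P ∩ Set.Iio N).ncard : ℝ) := by
      have h2 : (⋃₀ F ∩ Set.Iio N) ⊆
          ((hF.toFinset.biUnion (fun P => (fin_inter P N).toFinset) : Finset ℕ) : Set ℕ) := by
        rintro x ⟨⟨P, hP, hx⟩, hxN⟩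
        simp only [coe_biUnion, Set.Finite.coe_toFinset, Set.mem_iUnion, exists_prop]
        exact ⟨P, hP, hx, hxN⟩
      have h3 := Set.ncard_le_ncard h2 (Finset.finite_toSet _)
      rw [Set.ncard_coe_finset] at h3
      have h4 : (⋃₀ F ∩ Set.Iio N).ncard ≤ ∑ P ∈ hF.toFinset, (P ∩ Set.Iio N).ncard := by
        refine h3.trans (card_biUnion_le.trans (le_of_eq ?_))
        refine sum_congr rfl fun P _ => ?_
        rw [Set.ncard_eq_toFinset_card _ (fin_inter P N)]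
      exact_mod_cast h4
    have h2 : ∑ P ∈ hF.toFinset, ((P ∩ Set.Iio N).ncard : ℝ) ≤ (F.ncard : ℝ) * (N : ℝ) ^ ε := by
      rw [Set.ncard_eq_toFinset_card _ hF, ← nsmul_eq_mul]
      refine sum_le_card_nsmul _ _ _ fun P hP => ?_
      exact (hcon P (by simpa using hP)).le
    have h3 : δ * Real.sqrt N ≤ (N : ℝ) ^ κ * (N : ℝ) ^ ε :=
      (hcov.trans (h1.trans h2)).trans (mul_le_mul_of_nonneg_right hFc (by positivity))
    have h4 : Real.sqrt N = (N : ℝ) ^ (1 / 2 - ε - κ) * ((N : ℝ) ^ κ * (N : ℝ) ^ ε) := by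
      rw [Real.sqrt_eq_rpow, ← Real.rpow_add hN0, ← Real.rpow_add hN0]
      congr 1
      ring
    have h5 : 0 < (N : ℝ) ^ κ * (N : ℝ) ^ ε := by positivity
    rw [h4] at h3
    have h6 : 1 < δ * (N : ℝ) ^ (1 / 2 - ε - κ) := by
      have h7 : δ * (δ⁻¹ + 1) ≤ δ * (N : ℝ) ^ (1 / 2 - ε - κ) :=
        mul_le_mul_of_nonneg_left hN1 hδ.le
      have h8 : δ * (δ⁻¹ + 1) = 1 + δ := by
        field_simp
      linarith
    nlinarith
  obtain ⟨x, hx, hrep⟩ := hN P (hFA P hP).2 hPc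
  exact ⟨x, hx, hrep.trans (by exact_mod_cast rep2_mono (hFA P hP).1 x)⟩

end Pool.Agent.U198.BC
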