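import Mathlib
import Pool.Agent.U198.BC.Local

set_option autoImplicit false

/-!
The classes of closed sets, and the application to bases and to sets with `a_n ≤ C n ^ 2`.
-/

namespace Pool.Agent.U198.BC

open Finset Filter Pool.Agent.H523R4.BC Pool.Agent.TH521.Dig

theorem loc_bit {ε : ℝ} (hε : 0 < ε) (hε1 : ε ≤ 1) :
    Loc (fun C => ∃ (k : ℕ) (f : (Fin k → Bool) → Bool), ¬ IsAffine f ∧ BitClosed f C) ε 4 := by
  obtain ⟨c, hc, _, H⟩ := power_bit (ε / 2) (by linarith) (by linarith)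
  refine loc_of_pow (g := 2) le_rfl (α := ε / 2) (by linarith) (by linarith) hc ?_
  filter_upwards [H] with n hn C hC hcard
  obtain ⟨k, f, hf, hfC⟩ := hC
  obtain ⟨x, hx, hr⟩ := hn k f hf C hfC (by simpa using hcard)
  exact ⟨x, by rw [pow_succ] at hx; omega, hr⟩

theorem loc_semi {g : ℕ} (hg : 2 ≤ g) {ε : ℝ} (hε : 0 < ε) (hε1 : ε ≤ 1) :
    Loc (fun C => SemC g C ∨ MedC g C) ε (2 * g) := by
  obtain ⟨c, hc, _, H⟩ := power_semi hg (ε / 2) (by linarith) (by linarith)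
  refine loc_of_pow hg (α := ε / 2) (by linarith) (by linarith) hc ?_
  filter_upwards [H] with n hn C hC hcard
  have hC' : SemC g C := hC.elim id (semC_of_medC hg)
  obtain ⟨op, hop, hcl⟩ := hC'
  have hop' : IsSemi g op := by
    refine ⟨?_, ?_, ?_, ?_⟩
    · exact fun j x y hx hy => (hop j x y x hx hy hx).1
    · exact fun j x hx => (hop j x x x hx hx hx).2.1
    · exact fun j x y hx hy => (hop j x y x hx hy hx).2.2.1
    · exact fun j x y z hx hy hz => (hop j x y z hx hy hz).2.2.2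
  refine hn op hop' C hcl (le_trans ?_ hcard)
  exact Real.rpow_le_rpow (by norm_num) (by exact_mod_cast hg) (by positivity)

theorem loc_aff {g : ℕ} (hg : 2 ≤ g) {ε : ℝ} (hε : 5 / 11 < ε) :
    Loc (fun C => AffC g C) ε (2 * g) := by
  set α := (5 / 11 + ε) / 2 with hα
  rcases eq_or_ne g 2 with h | h
  · subst h
    obtain ⟨c, hc, H⟩ := power_aff_two α (by linarith)
    refine loc_of_pow (g := 2) le_rfl (α := α) (by linarith) (by linarith) hc ?_
    filter_upwards [H] with n hn C hC hcard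
    exact hn C hC (by simpa using hcard)
  · have hlg : 0 < Real.log g := Real.log_pos (by exact_mod_cast (by omega : 1 < g))
    obtain ⟨c, hc, H⟩ := power_aff hg α
      ((theta_lt (by omega)).trans (mul_lt_mul_of_pos_right (by linarith) hlg))
    refine loc_of_pow hg (α := α) (by linarith) (by linarith) hc ?_
    exact Eventually.of_forall fun n C hC hcard => H n C hC hcard

/-- a nonempty set closed under a Boolean function which depends on two variables is closed under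
a function which is not affine, or under the sum of three elements modulo two -/
theorem bool_cases {k : ℕ} {f : (Fin k → Bool) → Bool}
    (hf : ∃ i j : Fin k, i ≠ j ∧ DependsOn f i ∧ DependsOn f j) {C : Set ℕ}
    (hC : BitClosed f C) : (∃ (k : ℕ) (f : (Fin k → Bool) → Bool), ¬ IsAffine f ∧ BitClosed f C) ∨
      AffC 2 C := by
  by_cases h : IsAffine f
  · right
    rcases C.eq_empty_or_nonempty with h0 | hne
    · subst h0
      exact fun a ha => absurd ha (Set.notMem_empty a)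
    obtain ⟨i, j, hij, hi, hj⟩ := hf
    have h0 := zero_of_closed hC hne
    have hcl := affine_closed f h h0 i j hij hi hj _ (bits_closed hC)
    intro a ha b hb c hc
    obtain ⟨d, hd, hdd⟩ := hcl _ ⟨a, ha, rfl⟩ _ ⟨b, hb, rfl⟩ _ ⟨c, hc, rfl⟩
    refine ⟨d, hd, fun l => ?_⟩
    have h1 : d.testBit l = ((a.testBit l ^^ b.testBit l) ^^ c.testBit l) := by rw [← hdd]
    rw [digit_two, digit_two, digit_two, digit_two, h1]
    cases a.testBit l <;> cases b.testBit l <;> cases c.testBit l <;> simp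
  · exact Or.inl ⟨k, f, h, hC⟩

/-- first class -/
def NL (G : ℕ) (C : Set ℕ) : Prop :=
  (∃ (k : ℕ) (f : (Fin k → Bool) → Bool), ¬ IsAffine f ∧ BitClosed f C) ∨
    ∃ g, 2 ≤ g ∧ g ≤ G ∧ (SemC g C ∨ MedC g C)

/-- second class -/
def Al (G : ℕ) (C : Set ℕ) : Prop :=
  (∃ (k : ℕ) (f : (Fin k → Bool) → Bool), (∃ i j : Fin k, i ≠ j ∧ DependsOn f i ∧ DependsOn f j) ∧
    BitClosed f C) ∨ ∃ g, 2 ≤ g ∧ g ≤ G ∧ (SemC g C ∨ MedC g C ∨ AffC g C)

theorem loc_NL (G : ℕ) {ε : ℝ} (hε : 0 < ε) (hε1 : ε ≤ 1) : Loc (NL G) ε (2 * G + 4) := by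
  refine loc_or (loc_mono (loc_bit hε hε1) (fun _ h => h) (by omega)) ?_
  exact loc_bases G fun g hg hgG =>
    loc_mono (loc_semi hg hε hε1) (fun _ h => h) (by omega)

theorem loc_Al (G : ℕ) {ε : ℝ} (hε : 5 / 11 < ε) (hε1 : ε ≤ 1) : Loc (Al G) ε (2 * G + 4) := by
  have h1 := loc_NL G (by linarith : 0 < ε) hε1
  have h2 : Loc (fun C => ∃ g, 2 ≤ g ∧ g ≤ G ∧ AffC g C) ε (2 * G + 4) :=
    loc_bases G fun g hg hgG => loc_mono (loc_aff hg hε) (fun _ h => h) (by omega)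
  have h3 : Loc (AffC 2) ε (2 * G + 4) := loc_mono (loc_aff le_rfl hε) (fun _ h => h) (by omega)
  refine loc_mono (loc_or h1 (loc_or h2 h3)) ?_ le_rfl
  rintro C (⟨k, f, hf, hC⟩ | ⟨g, hg, hgG, hC⟩)
  · rcases bool_cases hf hC with h | h
    · exact Or.inl (Or.inl h)
    · exact Or.inr (Or.inr h)
  · rcases hC with hC | hC | hC
    · exact Or.inl (Or.inr ⟨g, hg, hgG, Or.inl hC⟩)
    · exact Or.inl (Or.inr ⟨g, hg, hgG, Or.inr hC⟩)
    · exact Or.inr (Or.inl ⟨g, hg, hgG, hC⟩)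

/-- affine images of the members of a class -/
def Img (K : Set ℕ → Prop) (P : Set ℕ) : Prop :=
  ∃ (C : Set ℕ) (u v : ℕ), 1 ≤ u ∧ K C ∧ P = (fun c => u * c + v) '' C

theorem loc_img_NL (G : ℕ) {ε : ℝ} (hε : 0 < ε) : Loc (Img (NL G)) ε (4 * G + 10) := by
  rcases le_or_gt ε 1 with h1 | h1
  · exact loc_mono (loc_image hε h1 (loc_NL G hε h1)) (fun _ h => h) (by omega)
  · exact loc_mono_exp (loc_mono (loc_image one_pos le_rfl (loc_NL G one_pos le_rfl))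
      (fun _ h => h) (by omega)) h1.le

theorem loc_img_Al (G : ℕ) {ε : ℝ} (hε : 5 / 11 < ε) : Loc (Img (Al G)) ε (4 * G + 10) := by
  rcases le_or_gt ε 1 with h1 | h1
  · exact loc_mono (loc_image (by linarith) h1 (loc_Al G hε h1)) (fun _ h => h) (by omega)
  · exact loc_mono_exp (loc_mono (loc_image one_pos le_rfl
      (loc_Al G (by norm_num : (5 : ℝ) / 11 < 1) le_rfl))
      (fun _ h => h) (by omega)) h1.le

/-- many scales with a large value of `r` at most `D N` -/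
theorem freq_of_scales {A : Set ℕ} {c : ℝ} {D : ℕ} (hc : 0 < c)
    (h : ∃ᶠ N : ℕ in atTop, ∃ x ≤ D * N, (N : ℝ) ^ c ≤ (rep2 A x : ℝ)) :
    ∃ᶠ n : ℕ in atTop, (n : ℝ) ^ (c / 2) ≤ (rep2 A n : ℝ) := by
  rw [frequently_atTop]
  intro m
  have hev : ∀ᶠ N : ℕ in atTop, (m : ℝ) + 2 ≤ (N : ℝ) ^ c :=
    ((tendsto_rpow_atTop hc).comp tendsto_natCast_atTop_atTop).eventually_ge_atTop _
  obtain ⟨N, ⟨⟨x, hx, hr⟩, hN⟩, hN2⟩ :=
    ((h.and_eventually hev).and_eventually (eventually_ge_atTop (D + 1))).exists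
  have hN0 : (0 : ℝ) < N := by exact_mod_cast (by omega : 0 < N)
  refine ⟨x, ?_, ?_⟩
  · have h1 : rep2 A x ≤ x + 1 := by
      have h2 : {p : ℕ × ℕ | p.1 ∈ A ∧ p.2 ∈ A ∧ p.1 + p.2 = x} ⊆
          ((Finset.HasAntidiagonal.antidiagonal x : Finset (ℕ × ℕ)) : Set (ℕ × ℕ)) := by
        rintro p ⟨_, _, hp⟩
        simpa using hp
      have h3 := Set.ncard_le_ncard h2 (Finset.finite_toSet _)
      rwa [Set.ncard_coe_finset, Finset.Nat.card_antidiagonal] at h3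
    have h2 : (m : ℝ) + 2 ≤ ((x + 1 : ℕ) : ℝ) := (hN.trans hr).trans (by exact_mod_cast h1)
    have h3 : m + 2 ≤ x + 1 := by exact_mod_cast h2
    omega
  · refine le_trans ?_ hr
    have h1 : (x : ℝ) ≤ (N : ℝ) ^ 2 := by
      have h2 : x ≤ N * N := hx.trans (Nat.mul_le_mul_right _ (by omega))
      have h3 : (x : ℝ) ≤ N * N := by exact_mod_cast h2
      nlinarith
    calc (x : ℝ) ^ (c / 2) ≤ ((N : ℝ) ^ 2) ^ (c / 2) :=
          Real.rpow_le_rpow (Nat.cast_nonneg _) h1 (by positivity)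
      _ = (N : ℝ) ^ c := by
          rw [← Real.rpow_natCast, ← Real.rpow_mul hN0.le]
          congr 1
          push_cast
          ring

theorem count_basis' {A : Set ℕ} (h : ∀ᶠ n : ℕ in atTop, 1 ≤ rep2 A n) :
    ∀ᶠ N : ℕ in atTop, 1 / 2 * Real.sqrt N ≤ ((A ∩ Set.Iio N).ncard : ℝ) := by
  classical
  obtain ⟨n0, hn0⟩ := eventually_atTop.1 h
  filter_upwards [eventually_ge_atTop (2 * n0 + 2)] with N hN2
  have hfin : (A ∩ Set.Iio N).Finite := fin_inter A N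
  set S := hfin.toFinset with hS
  have hSc : (A ∩ Set.Iio N).ncard = S.card := Set.ncard_eq_toFinset_card _ hfin
  have hcov : Finset.Ico n0 N ⊆ (S ×ˢ S).image (fun p => p.1 + p.2) := by
    intro n hn
    rw [Finset.mem_Ico] at hn
    have h1 := hn0 n hn.1
    have h2 : {p : ℕ × ℕ | p.1 ∈ A ∧ p.2 ∈ A ∧ p.1 + p.2 = n}.Nonempty := by
      rw [← Set.ncard_pos (rep2_finite A n)]
      exact h1
    obtain ⟨p, hp1, hp2, hp3⟩ := h2
    rw [mem_image]
    refine ⟨p, ?_, hp3⟩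
    rw [mem_product, hS, Set.Finite.mem_toFinset, Set.Finite.mem_toFinset]
    exact ⟨⟨hp1, by simp only [Set.mem_Iio]; omega⟩, ⟨hp2, by simp only [Set.mem_Iio]; omega⟩⟩
  have h3 := (card_le_card hcov).trans card_image_le
  rw [Nat.card_Ico, card_product] at h3
  have h4 : (N : ℝ) ≤ 2 * ((S.card : ℝ) * S.card) := by
    have : N ≤ 2 * (S.card * S.card) := by omega
    exact_mod_cast this
  rw [hSc]
  have h5 : Real.sqrt N ≤ 2 * S.card := by
    rw [Real.sqrt_le_left (by positivity)]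
    have : (0 : ℝ) ≤ (S.card : ℝ) * S.card := by positivity
    nlinarith
  linarith

theorem count_square' {A : Set ℕ} (hA : A.Infinite) {C : ℝ}
    (h : ∃ᶠ n : ℕ in atTop, (Nat.nth (· ∈ A) n : ℝ) ≤ C * ((n : ℝ) + 1) ^ 2) :
    ∃ δ : ℝ, 0 < δ ∧
      ∃ᶠ N : ℕ in atTop, δ * Real.sqrt N ≤ ((A ∩ Set.Iio N).ncard : ℝ) := by
  classical
  have hA' : (Set.ofPred (fun x => x ∈ A)).Infinite := hA
  have hcount : ∀ n, (A ∩ Set.Iio (Nat.nth (· ∈ A) n + 1)).ncard = n + 1 := by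
    intro n
    have h1 : Nat.count (· ∈ A) (Nat.nth (· ∈ A) n + 1) = n + 1 :=
      Nat.count_nth_succ_of_infinite hA' n
    rw [Nat.count_eq_card_filter_range] at h1
    rw [← h1, ← Set.ncard_coe_finset]
    congr 1
    ext x
    simp only [Set.mem_inter_iff, Set.mem_Iio, coe_filter, mem_range, Set.mem_ofPred_eq]
    exact and_comm
  have hge : ∀ n, n ≤ Nat.nth (· ∈ A) n := fun n => (Nat.nth_strictMono hA').id_le n
  set D : ℝ := |C| + 1 with hD
  have hD0 : 0 < D := by positivity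
  refine ⟨(Real.sqrt D)⁻¹, by positivity, ?_⟩
  rw [frequently_atTop] at h ⊢
  intro M
  obtain ⟨n, hn, hn1⟩ := h M
  refine ⟨Nat.nth (· ∈ A) n + 1, by have := hge n; omega, ?_⟩
  rw [hcount n]
  push_cast
  have hn0 : (0 : ℝ) ≤ n := Nat.cast_nonneg n
  have h3 : (Nat.nth (· ∈ A) n : ℝ) + 1 ≤ D * ((n : ℝ) + 1) ^ 2 := by
    have h4 : C * ((n : ℝ) + 1) ^ 2 ≤ |C| * ((n : ℝ) + 1) ^ 2 :=
      mul_le_mul_of_nonneg_right (le_abs_self C) (by positivity)
    have h5 : (1 : ℝ) ≤ ((n : ℝ) + 1) ^ 2 := by nlinarith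
    rw [hD]
    nlinarith
  have h4 : Real.sqrt ((Nat.nth (· ∈ A) n : ℝ) + 1) ≤ Real.sqrt D * ((n : ℝ) + 1) := by
    refine (Real.sqrt_le_sqrt h3).trans (le_of_eq ?_)
    rw [Real.sqrt_mul hD0.le, Real.sqrt_sq (by linarith)]
  rw [inv_mul_le_iff₀ (by positivity)]
  exact h4

/-- sets covered by few members of the class -/
theorem questions {K : Set ℕ → Prop} {ε κ : ℝ} {D : ℕ} (hεκ : ε + κ < 1 / 2)
    (h : Loc K ε D) : ∃ c : ℝ, 0 < c ∧ ∀ A : Set ℕ,
    ((∀ᶠ n : ℕ in atTop, 1 ≤ rep2 A n) ∨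
      (A.Infinite ∧ ∃ C : ℝ, ∃ᶠ n : ℕ in atTop,
        (Nat.nth (· ∈ A) n : ℝ) ≤ C * ((n : ℝ) + 1) ^ 2)) →
    ∀ F : Set (Set ℕ), (∀ P ∈ F, K P) → A = ⋃₀ F →
      (∀ᶠ N : ℕ in atTop, {P ∈ F | (P ∩ Set.Iio N).Nonempty}.Finite ∧
        ({P ∈ F | (P ∩ Set.Iio N).Nonempty}.ncard : ℝ) ≤ (N : ℝ) ^ κ) →
      ∃ᶠ n : ℕ in atTop, (n : ℝ) ^ c ≤ (rep2 A n : ℝ) := by
  obtain ⟨c, hc, H⟩ := cover hεκ h
  refine ⟨c / 2, by positivity, fun A hA F hF hAF hfew => ?_⟩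
  obtain ⟨δ, hδ, hδA⟩ : ∃ δ : ℝ, 0 < δ ∧
      ∃ᶠ N : ℕ in atTop, δ * Real.sqrt N ≤ ((A ∩ Set.Iio N).ncard : ℝ) := by
    rcases hA with hA | ⟨hinf, C, hC⟩
    · exact ⟨1 / 2, by norm_num, (count_basis' hA).frequently⟩
    · exact count_square' hinf hC
  refine freq_of_scales (D := D) hc ?_
  refine (hδA.and_eventually ((H δ hδ).and hfew)).mono fun N hN => ?_
  obtain ⟨h1, h2, h3, h4⟩ := hN
  refine h2 A {P ∈ F | (P ∩ Set.Iio N).Nonempty} h3 h4 ?_ ?_
  · rintro P ⟨hP, _⟩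
    refine ⟨?_, hF P hP⟩
    rw [hAF]
    exact Set.subset_sUnion_of_mem hP
  · have h5 : A ∩ Set.Iio N = ⋃₀ {P ∈ F | (P ∩ Set.Iio N).Nonempty} ∩ Set.Iio N := by
      ext x
      constructor
      · rintro ⟨hx, hxN⟩
        rw [hAF] at hx
        obtain ⟨P, hP, hxP⟩ := hx
        exact ⟨⟨P, ⟨hP, ⟨x, hxP, hxN⟩⟩, hxP⟩, hxN⟩
      · rintro ⟨⟨P, ⟨hP, _⟩, hxP⟩, hxN⟩
        refine ⟨?_, hxN⟩
        rw [hAF]
        exact ⟨P, hP, hxP⟩
    rw [← h5]
    exact h1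

end Pool.Agent.U198.BC
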